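import Mathlib
import Pool.Agent.helper68.AM.Spec

/-! Project AM (MP_d52931_gt): module HR, an elementary inequality of Hall–Rankin type. -/

set_option autoImplicit false

namespace AM

open Pool.Agent.helper72.Sq Finset

theorem HR_inner (m x : ℕ) (S : Finset ℕ) (hS : ∀ n ∈ S, 1 ≤ n ∧ n ≤ x) (hm : 1 ≤ m) :
    ∑ n ∈ S.filter (fun n => m ∣ n), ArithmeticFunction.vonMangoldt (n / m) ≤
      (Real.log 4 + 4) * ((x : ℝ) / m) := by
  have h1 : ∑ n ∈ S.filter (fun n => m ∣ n), ArithmeticFunction.vonMangoldt (n / m) =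
      ∑ d ∈ (S.filter (fun n => m ∣ n)).image (fun n => n / m), ArithmeticFunction.vonMangoldt d := by
    rw [Finset.sum_image]
    intro a ha b hb hab
    have ha' := (Finset.mem_filter.1 ha).2
    have hb' := (Finset.mem_filter.1 hb).2
    have hab' : a / m = b / m := hab
    calc a = a / m * m := (Nat.div_mul_cancel ha').symm
      _ = b / m * m := by rw [hab']
      _ = b := Nat.div_mul_cancel hb'
  rw [h1]
  have h2 : ∑ d ∈ (S.filter (fun n => m ∣ n)).image (fun n => n / m), ArithmeticFunction.vonMangoldt d ≤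
      Chebyshev.psi ((x : ℝ) / m) := by
    unfold Chebyshev.psi
    rw [Nat.floor_div_eq_div]
    apply Finset.sum_le_sum_of_subset_of_nonneg
    · intro d hd
      obtain ⟨n, hn, rfl⟩ := Finset.mem_image.1 hd
      obtain ⟨hnS, hmn⟩ := Finset.mem_filter.1 hn
      obtain ⟨hn1, hn2⟩ := hS n hnS
      rw [Finset.mem_Ioc]
      refine ⟨Nat.div_pos (Nat.le_of_dvd hn1 hmn) hm, Nat.div_le_div_right hn2⟩
    · intro i _ _
      exact ArithmeticFunction.vonMangoldt_nonneg
  refine h2.trans (Chebyshev.psi_le_const_mul_self ?_)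
  positivity

theorem HR_log (W : Finset ℕ) (x : ℕ) :
    ∑ n ∈ (Icc 1 x).filter (fun n => ∀ p ∈ W, ¬ p ∣ n), Real.log n ≤
      (Real.log 4 + 4) * (x * ∑ m ∈ (Icc 1 x).filter (fun n => ∀ p ∈ W, ¬ p ∣ n), 1 / (m : ℝ)) := by
  set S := (Icc 1 x).filter (fun n => ∀ p ∈ W, ¬ p ∣ n) with hSdef
  have hS : ∀ n ∈ S, 1 ≤ n ∧ n ≤ x := fun n hn => Finset.mem_Icc.1 (Finset.mem_filter.1 hn).1
  have h1 : ∀ n ∈ S, Real.log n = ∑ m ∈ S.filter (fun m => m ∣ n), ArithmeticFunction.vonMangoldt (n / m) := by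
    intro n hn
    have hn0 : n ≠ 0 := by have := (hS n hn).1; omega
    have hdiv : S.filter (fun m => m ∣ n) = n.divisors := by
      ext m
      rw [Finset.mem_filter, Nat.mem_divisors]
      constructor
      · rintro ⟨_, h⟩
        exact ⟨h, hn0⟩
      · rintro ⟨h, _⟩
        refine ⟨?_, h⟩
        rw [hSdef, Finset.mem_filter, Finset.mem_Icc]
        refine ⟨⟨Nat.pos_of_dvd_of_pos h (Nat.pos_of_ne_zero hn0),
          (Nat.le_of_dvd (Nat.pos_of_ne_zero hn0) h).trans (hS n hn).2⟩, ?_⟩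
        intro p hp hpm
        exact (Finset.mem_filter.1 hn).2 p hp (hpm.trans h)
    rw [hdiv, Nat.sum_div_divisors n (fun d => ArithmeticFunction.vonMangoldt d)]
    exact (ArithmeticFunction.vonMangoldt_sum (n := n)).symm
  rw [Finset.sum_congr rfl h1]
  rw [Finset.sum_comm' (t' := S) (s' := fun m => S.filter (fun n => m ∣ n))
    (h := by
      intro a b
      simp only [Finset.mem_filter]
      tauto)]
  calc ∑ m ∈ S, ∑ n ∈ S.filter (fun n => m ∣ n), ArithmeticFunction.vonMangoldt (n / m)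
      ≤ ∑ m ∈ S, (Real.log 4 + 4) * ((x : ℝ) / m) :=
        Finset.sum_le_sum fun m hm => HR_inner m x S hS (hS m hm).1
    _ = _ := by
        rw [← Finset.mul_sum]
        congr 1
        rw [Finset.mul_sum]
        apply Finset.sum_congr rfl
        intro m _
        ring

theorem HR : HR_stmt := by
  refine ⟨Real.log 4 + 4 + 1, by positivity, ?_⟩
  intro W x hx
  set S := (Icc 1 x).filter (fun n => ∀ p ∈ W, ¬ p ∣ n) with hSdef
  have hS : ∀ n ∈ S, 1 ≤ n ∧ n ≤ x := fun n hn => Finset.mem_Icc.1 (Finset.mem_filter.1 hn).1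
  have hx0 : (0 : ℝ) < x := by positivity
  have h1 : (S.card : ℝ) * Real.log x = ∑ n ∈ S, Real.log n + ∑ n ∈ S, Real.log ((x : ℝ) / n) := by
    rw [← Finset.sum_add_distrib, ← nsmul_eq_mul, ← Finset.sum_const]
    apply Finset.sum_congr rfl
    intro n hn
    have hn0 : (0 : ℝ) < n := by exact_mod_cast (hS n hn).1
    rw [Real.log_div hx0.ne' hn0.ne']
    ring
  have h2 : ∑ n ∈ S, Real.log ((x : ℝ) / n) ≤ x * ∑ m ∈ S, 1 / (m : ℝ) := by
    rw [Finset.mul_sum]
    apply Finset.sum_le_sum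
    intro n hn
    have hn0 : (0 : ℝ) < n := by exact_mod_cast (hS n hn).1
    have h3 : 0 < (x : ℝ) / n := by positivity
    have h4 := Real.log_le_sub_one_of_pos h3
    have h5 : (x : ℝ) / n = x * (1 / n) := by ring
    linarith
  have h3 := HR_log W x
  rw [← hSdef] at h3
  rw [h1]
  calc ∑ n ∈ S, Real.log n + ∑ n ∈ S, Real.log ((x : ℝ) / n)
      ≤ (Real.log 4 + 4) * (x * ∑ m ∈ S, 1 / (m : ℝ)) + x * ∑ m ∈ S, 1 / (m : ℝ) := add_le_add h3 h2
    _ = _ := by ring

end AM
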